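import Pool.Agent.T6.H13.GP.Final

/-!
# The motivic t-structure and morphisms from the unit to objects with cohomology in one degree

Let `C` be a rigid tensor triangulated category with an indecomposable unit, idempotent complete and
with realisations `R l`, for example the category of constructible motives over a field, with the
`ℓ`-adic realisations. Let `G` be a class of objects of `C`, containing the unit and stable under
tensor products and duals, such that all realisations of the objects of `G` are concentrated in
degree zero, and such that `G` generates `C` under shifts, cones and direct summands. For motives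
over a field such a class exists unconditionally, by the basic lemma of Beilinson and Nori: one can
take the tensor products of Tate twists of the motives `M(X, Y)[-n]` and of their duals, where
`(X, Y)` runs over the pairs of varieties with cohomology in the one degree `n`.

It is shown that a motivic t-structure exists on `C` if and only if the following hold for one
realisation `R l₀` with coefficients in a field of characteristic zero:

* `R l₀` is conservative,
* for each `X` in `G` there is no nonzero morphism `𝟙 ⟶ X⟦-n⟧` for `n > 0` (vanishing of
  Beilinson-Soulé type),
* for each `X` in `G` the cycle map `Hom(𝟙, X) ⟶ H⁰(X)` of `R l₀` is injective.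

In particular no exactness, abelianness or semisimplicity is assumed, no truncations or Künneth
projectors, no weights, and nothing is assumed on the morphisms in positive degrees or on the image
of the cycle map.
-/

set_option autoImplicit false

open CategoryTheory Limits MonoidalCategory Pretriangulated Triangulated

universe v u w

namespace Pool.Agent.Results.MP_6d0ce9_ag.GeneratorCriterion

open Pool.Agent.Y116.MT Pool.Agent.V1178.MT Pool.Agent.T6.H13.MT

/-- Let the class `G` contain the unit, be stable under tensor products and duals, have all its
realisations in degree zero and generate `C`. Then a motivic t-structure exists if and only if one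
realisation `R l₀` is conservative and for all `X` in `G` there are no nonzero morphisms
`𝟙 ⟶ X⟦-n⟧` for `n > 0` and the map `Hom(𝟙, X) ⟶ Hom(R l₀ 𝟙, R l₀ X)` is injective. -/
theorem result {C : Type u} [Category.{v} C] [Preadditive C] [HasZeroObject C] [HasShift C ℤ]
    [∀ n : ℤ, (shiftFunctor C n).Additive] [Pretriangulated C] [IsTriangulated C]
    [IsIdempotentComplete C] [MonoidalCategory C] [SymmetricCategory C] [TensorTriangulated C]
    [MonoidalPreadditive C] [RightRigidCategory C]
    (hid : ∀ e : 𝟙_ C ⟶ 𝟙_ C, e ≫ e = e → e = 0 ∨ e = 𝟙 _)
    {Λ : Type*} {E : Λ → Type w} [∀ l, Field (E l)] (R : ∀ l, Realisation C (E l))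
    (l₀ : Λ) [CharZero (E l₀)] (G : ObjectProperty C) (hG : ThickGenerates G)
    (hunit : G (𝟙_ C)) (htensor : ∀ X Y, G X → G Y → G (X ⊗ Y)) (hdual : ∀ X, G X → G Xᘁ)
    (hdeg : ∀ X, G X → ∀ l, (R l).Deg X 0) :
    (∃ t : TStructure C, IsMotivic t R) ↔
      Conservative (R l₀) ∧
      (∀ X, G X → ∀ n : ℕ, 0 < n → ∀ f : 𝟙_ C ⟶ X⟦-(n : ℤ)⟧, f = 0) ∧
      (∀ X, G X → ∀ f : 𝟙_ C ⟶ X, (R l₀).H.map f = 0 → f = 0) :=
  Pool.Agent.T6.H13.GP.exists_motivic_iff R hid l₀ hG hunit htensor hdual hdeg

end Pool.Agent.Results.MP_6d0ce9_ag.GeneratorCriterion
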