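import Pool.Agent.T6.H13.GP.Final

/-!
# The motivic t-structure is equivalent to a single nilpotence statement

Let `C` be a rigid tensor triangulated category with an indecomposable unit, idempotent complete and
with realisations `R l`, for example the category of constructible motives over a field, with the
`ℓ`-adic realisations. Let `G` be a class of objects of `C`, containing the unit and stable under
tensor products and duals, such that all realisations of the objects of `G` are concentrated in
degree zero, and such that `G` generates `C` under shifts, cones and direct summands. For motives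
over a field such a class exists unconditionally, by the basic lemma of Beilinson and Nori.

It is shown that a motivic t-structure exists on `C` if and only if the following holds:

(★) if a morphism `a : A ⟶ 𝟙` is annihilated by some nonzero morphism `s : 𝟙 ⟶ X⟦-n⟧` with `X` in `G`
and `n ≥ 0`, then `a` is tensor nilpotent.

The statement (★) does not mention the realisations (they only enter in the choice of `G`). It is a
combination of a vanishing statement (there are no nonzero `s` with `n > 0`) and of a smash
nilpotence statement of the kind conjectured by Voevodsky for algebraic cycles. It is not assumed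
that some realisation is conservative, nor that cycle maps are injective: this follows from (★).
-/

set_option autoImplicit false

open CategoryTheory Limits MonoidalCategory Pretriangulated Triangulated

universe v u w

namespace Pool.Agent.Results.MP_6d0ce9_ag.NilpotenceCriterion

open Pool.Agent.Y116.MT Pool.Agent.V1178.MT Pool.Agent.T6.H13.MT

/-- The morphism `a : A ⟶ 𝟙` is tensor nilpotent: for some `m` the morphism `A ⊗ ⋯ ⊗ A ⟶ 𝟙` (with `m`
factors `A`) induced by `a` vanishes. -/
def TensorNilpotent {C : Type u} [Category.{v} C] [Preadditive C] [MonoidalCategory C] {A : C}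
    (a : A ⟶ 𝟙_ C) : Prop :=
  ∃ m : ℕ, Pool.Agent.T6.H13.GP.kp a (𝟙_ C) m = 0

/-- Let the class `G` contain the unit, be stable under tensor products and duals, have all its
realisations in degree zero and generate `C`. Then a motivic t-structure exists if and only if each
morphism `a : A ⟶ 𝟙` which is annihilated by a nonzero morphism `s : 𝟙 ⟶ X⟦-n⟧` with `X` in `G` and
`n ≥ 0` is tensor nilpotent. -/
theorem result {C : Type u} [Category.{v} C] [Preadditive C] [HasZeroObject C] [HasShift C ℤ]
    [∀ n : ℤ, (shiftFunctor C n).Additive] [Pretriangulated C] [IsTriangulated C]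
    [IsIdempotentComplete C] [MonoidalCategory C] [SymmetricCategory C] [TensorTriangulated C]
    [MonoidalPreadditive C] [RightRigidCategory C]
    (hid : ∀ e : 𝟙_ C ⟶ 𝟙_ C, e ≫ e = e → e = 0 ∨ e = 𝟙 _)
    {Λ : Type*} {E : Λ → Type w} [∀ l, Field (E l)] (R : ∀ l, Realisation C (E l))
    (l₀ : Λ) [CharZero (E l₀)] (G : ObjectProperty C) (hG : ThickGenerates G)
    (hunit : G (𝟙_ C)) (htensor : ∀ X Y, G X → G Y → G (X ⊗ Y)) (hdual : ∀ X, G X → G Xᘁ)
    (hdeg : ∀ X, G X → ∀ l, (R l).Deg X 0) :
    (∃ t : TStructure C, IsMotivic t R) ↔
      ∀ X, G X → ∀ (n : ℕ) (s : 𝟙_ C ⟶ X⟦-(n : ℤ)⟧), s ≠ 0 →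
        ∀ (A : C) (a : A ⟶ 𝟙_ C), a ≫ s = 0 → TensorNilpotent a :=
  Pool.Agent.T6.H13.GP.exists_motivic_iff_star R hid l₀ hG hunit htensor hdual hdeg

end Pool.Agent.Results.MP_6d0ce9_ag.NilpotenceCriterion
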