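import Pool.Agent.T6.H13.MT.Main

/-!
# One prime suffices: independence of `ℓ` of the motivic t-structure

Let `C` be a rigid tensor triangulated category with an indecomposable unit and with realisations
`R l` with coefficients in fields of characteristic zero, for example the category of constructible
motives over a field `k`, with the `ℓ`-adic realisations for all primes `ℓ` different from the
characteristic. The following is known about the category of motives and is assumed of `C`.

* `C` is generated, under shifts, cones and direct summands, by a class `G` of objects (the objects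
  `M(X)(n)[2n]` with `X` smooth projective of pure dimension).
* The Betti numbers of the objects in `G` do not depend on `l` (in fact an inequality is enough).
* There is an invertible object `T` (the object `𝟙(1)[2]`) with all realisations in degree `-2`, and
  each `X` in `G` has morphisms `X ⟶ X ⊗ T ^ k` for which the hard Lefschetz theorem holds, for one
  fixed realisation `R l₀`.

It is shown that a t-structure on `C` is motivic, that is, non-degenerate, compatible with the
tensor product and such that all `R l` are t-exact, if and only if the single realisation `R l₀` is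
conservative and t-exact.
-/

set_option autoImplicit false

open CategoryTheory Limits MonoidalCategory Pretriangulated Triangulated

universe v u w

namespace Pool.Agent.Results.MP_6d0ce9_ag.OnePrime

open Pool.Agent.Y116.MT Pool.Agent.V1178.MT Pool.Agent.T6.H13.MT

/-- Let the class `G` generate `C`, such that the dimensions of the cohomology of the objects of `G`
for `R l₀` are at most those for `R l`, for all `l`, and such that the objects of `G` satisfy the
hard Lefschetz theorem for `R l₀`. Then a t-structure on `C` is motivic for all realisations `R l`
if and only if the one realisation `R l₀` is conservative and t-exact. -/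
theorem result {C : Type u} [Category.{v} C] [Preadditive C] [HasZeroObject C] [HasShift C ℤ]
    [∀ n : ℤ, (shiftFunctor C n).Additive] [Pretriangulated C] [IsTriangulated C]
    [MonoidalCategory C] [SymmetricCategory C] [TensorTriangulated C] [MonoidalPreadditive C]
    [RightRigidCategory C] (hid : ∀ e : 𝟙_ C ⟶ 𝟙_ C, e ≫ e = e → e = 0 ∨ e = 𝟙 _)
    {Λ : Type*} {E : Λ → Type w} [∀ l, Field (E l)] [∀ l, CharZero (E l)]
    (R : ∀ l, Realisation C (E l)) (l₀ : Λ)
    (T : C) (hT : ∃ T' : C, Nonempty (T ⊗ T' ≅ 𝟙_ C)) (hT2 : ∀ l, (R l).Deg T (-2))
    (G : ObjectProperty C) (hG : ThickGenerates G)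
    (hbetti : ∀ X, G X → ∀ (l : Λ) (i : ℤ), Module.finrank (E l₀) ((R l₀).H.obj (X⟦i⟧)) ≤
      Module.finrank (E l) ((R l).H.obj (X⟦i⟧)))
    (hlefschetz : ∀ X, G X → ∃ e : ℤ, ∀ k : ℕ, ∃ L : X ⟶ twist T X k,
      IsIso ((R l₀).H.map (L⟦e - k⟧'))) (t : TStructure C) :
    IsMotivic t R ↔ Conservative (R l₀) ∧ TExact t (R l₀) := by
  obtain ⟨T', ⟨eT⟩⟩ := hT
  exact motivic_iff_one hid R l₀ eT hT2 hG hbetti hlefschetz t

end Pool.Agent.Results.MP_6d0ce9_ag.OnePrime
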