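import Pool.Agent.T6.H71.AE.Main

/-!
# Exactness of the realisations is automatic

Let `C` be a rigid, idempotent complete tensor triangulated category over `ℚ` with an indecomposable
unit and with realisations `R l`, for example the category of constructible motives over a field `k`
of characteristic zero, with the `ℓ`-adic realisations for all primes `ℓ`. The following is known
about the category of motives and is assumed of `C`.

* The realisations `R l` kill the same objects (by comparison with Betti cohomology).
* There are Tate objects `T m`, the objects `𝟙(m)`, with cohomology in degree zero.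
* `C` is generated, under shifts, cones and direct summands, by a class `G` of objects (the objects
  `M = h(X)(n)[2n]` with `X` smooth projective of pure dimension `d`), which are polarised for one
  realisation `R l₀`: with `e = d - 2n`, the powers of the class of an ample divisor give the maps
  `L k : M ⟶ (T k ⊗ M)⟦2k⟧`, for which the hard Lefschetz theorem holds, and Poincaré duality and
  `L k` give the pairing `M⟦e-k⟧ ⊗ M⟦e-k⟧ ⟶ T (k-e)`. It has the property `hodge_riemann`, because
  the image of a morphism `g : N ⟶ M⟦e-k⟧` in cohomology is a sub-Hodge structure (after
  embedding a field of definition of `g` in the complex numbers), and because the pairing is a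
  polarisation on primitive cohomology.

It is shown that a t-structure on `C` is motivic, that is, non-degenerate, compatible with the
tensor product and such that all `R l` are t-exact, if and only if it is non-degenerate and
compatible with the tensor product, its heart contains `T 1`, and `R l₀` is conservative: the
exactness of the realisations follows.
-/

set_option autoImplicit false

open CategoryTheory Limits MonoidalCategory Pretriangulated Triangulated

universe v u w

namespace Pool.Agent.Results.MP_6d0ce9_ag.TateHeartCriterion

open Pool.Agent.Y116.MT Pool.Agent.V1178.MT Pool.Agent.T6.H13.MT Pool.Agent.T6.H71.AE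

/-- Let the class `G` generate `C`, such that the objects of `G` are polarised for `R l₀`. Then a
t-structure on `C` is motivic for all realisations `R l` if and only if `R l₀` is conservative and
the t-structure is non-degenerate and compatible with the tensor product and has `T 1` in its
heart. -/
theorem result {C : Type u} [Category.{v} C] [Preadditive C] [HasZeroObject C] [HasShift C ℤ]
    [∀ n : ℤ, (shiftFunctor C n).Additive] [Pretriangulated C] [IsTriangulated C]
    [MonoidalCategory C] [SymmetricCategory C] [TensorTriangulated C] [MonoidalPreadditive C]
    [RightRigidCategory C] [Linear ℚ C] [IsIdempotentComplete C]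
    (hid : ∀ e : 𝟙_ C ⟶ 𝟙_ C, e ≫ e = e → e = 0 ∨ e = 𝟙 _)
    {Λ : Type*} {E : Λ → Type w} [∀ l, Field (E l)] (R : ∀ l, Realisation C (E l)) (l₀ : Λ)
    [CharZero (E l₀)]
    (hR : ∀ (l : Λ) (X : C), IsZero ((R l).H.obj X) ↔ IsZero ((R l₀).H.obj X))
    (T : ℤ → C) (hT : IsTate C T) (hT0 : ∀ m, (R l₀).Deg (T m) 0)
    (G : ObjectProperty C) (hG : ThickGenerates G)
    (hpol : ∀ X, G X → Nonempty (Polarised (R l₀) T X)) (t : TStructure C) :
    IsMotivic t R ↔ Conservative (R l₀) ∧ TensorCompat t ∧ Hrt t (T 1) ∧
      (∀ X : C, (∀ n : ℤ, t.le n X) → IsZero X) ∧ (∀ X : C, (∀ n : ℤ, t.ge n X) → IsZero X) :=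
  main hid R l₀ hR hT hT0 hG hpol t

end Pool.Agent.Results.MP_6d0ce9_ag.TateHeartCriterion
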